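import Pool.Agent.helper74.DP.CH

/-!
# Project dp, module SE1: extension of arms with standard end points
-/

set_option linter.all false

namespace DP

open MeasureTheory

/-! ## Geometry of the standard points -/

theorem SE1_sd_zpt (x : V) (r l : ℕ) : sd x (zpt x r l) = r := by
  unfold zpt sd
  split_ifs <;> simp

theorem SE1_zpt_same (x : V) (r r' l : ℕ) :
    sd (zpt x r l) (zpt x r' l) + min r r' = max r r' := by
  unfold zpt sd
  split_ifs <;> simp <;> omega

theorem SE1_zpt_diff (x : V) (r r' l l' : ℕ) (h : l % 4 ≠ l' % 4) :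
    r ≤ sd (zpt x r l) (zpt x r' l') ∧ r' ≤ sd (zpt x r l) (zpt x r' l') := by
  have hl : l % 4 = 0 ∨ l % 4 = 1 ∨ l % 4 = 2 ∨ l % 4 = 3 := by omega
  have hl' : l' % 4 = 0 ∨ l' % 4 = 1 ∨ l' % 4 = 2 ∨ l' % 4 = 3 := by omega
  unfold zpt sd
  rcases hl with hl | hl | hl | hl <;> rcases hl' with hl' | hl' | hl' | hl' <;>
    first
    | (exfalso; omega)
    | (simp only [hl, hl']; norm_num <;> omega)

theorem SE1_kol {l l' : ℕ} (h : kol l ≠ kol l') : l % 4 ≠ l' % 4 := by
  intro h'
  apply h
  unfold kol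
  have : l % 2 = l' % 2 := by omega
  rw [this]

/-- radius of the cell number `t` -/
def SE1_rad (s : Bool) (m t : ℕ) : ℕ := if s = true then 1024 * m + 2 * t * m else 1024 * m - 2 * t * m

/-- number of the last cell -/
def SE1_T (s : Bool) : ℕ := if s = true then 514 else 258

/-- the chain -/
def SE1_gs (s : Bool) (x : V) (m l : ℕ) : List V :=
  (List.range (SE1_T s + 1)).map fun t => zpt x (SE1_rad s m t) l

theorem SE1_gnb (s : Bool) (x : V) (m l t : ℕ) (ht : t < SE1_T s) :
    gnb m (zpt x (SE1_rad s m t) l) (zpt x (SE1_rad s m (t + 1)) l) := by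
  have e1 : 2 * (t + 1) * m = 2 * t * m + 2 * m := by ring
  unfold gnb zpt SE1_rad
  unfold SE1_T at ht
  cases s
  · simp only [Bool.false_eq_true, if_false] at ht ⊢
    have h1 : 2 * (t + 1) * m ≤ 2 * 258 * m := Nat.mul_le_mul_right _ (by omega)
    have h2 : ((1024 * m - 2 * (t + 1) * m : ℕ) : ℤ) = ((1024 * m - 2 * t * m : ℕ) : ℤ) - 2 * m := by
      omega
    rw [h2]
    split_ifs
    · right; left
      ext <;> simp <;> ring
    · right; right; right
      ext <;> simp <;> ring
    · left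
      ext <;> simp <;> ring
    · right; right; left
      ext <;> simp <;> ring
  · simp only [if_true] at ht ⊢
    have h2 : ((1024 * m + 2 * (t + 1) * m : ℕ) : ℤ) = ((1024 * m + 2 * t * m : ℕ) : ℤ) + 2 * m := by
      push_cast
      ring
    rw [h2]
    split_ifs
    · left
      ext <;> simp <;> ring
    · right; right; left
      ext <;> simp <;> ring
    · right; left
      ext <;> simp <;> ring
    · right; right; right
      ext <;> simp <;> ring

theorem SE1_chn (s : Bool) (x : V) (m l : ℕ) : Chn m (SE1_gs s x m l) := by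
  unfold Chn SE1_gs
  rw [List.isChain_map]
  rw [List.isChain_iff_getElem]
  intro i hi
  rw [List.length_range] at hi
  simp only [List.getElem_range]
  exact SE1_gnb s x m l i (by omega)

theorem SE1_mem_gs {s : Bool} {x : V} {m l : ℕ} {g : V} (h : g ∈ SE1_gs s x m l) :
    ∃ t, t ≤ SE1_T s ∧ g = zpt x (SE1_rad s m t) l := by
  unfold SE1_gs at h
  rw [List.mem_map] at h
  obtain ⟨t, ht, rfl⟩ := h
  rw [List.mem_range] at ht
  exact ⟨t, by omega, rfl⟩

theorem SE1_gs_mem {s : Bool} {x : V} {m l t : ℕ} (h : t ≤ SE1_T s) :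
    zpt x (SE1_rad s m t) l ∈ SE1_gs s x m l := by
  unfold SE1_gs
  rw [List.mem_map]
  exact ⟨t, List.mem_range.2 (by omega), rfl⟩

theorem SE1_rad_bd {s : Bool} {m t : ℕ} (ht : t ≤ SE1_T s) :
    (s = true → 1024 * m ≤ SE1_rad s m t ∧ SE1_rad s m t ≤ 2052 * m) ∧
    (s = false → 508 * m ≤ SE1_rad s m t ∧ SE1_rad s m t ≤ 1024 * m) := by
  unfold SE1_rad
  unfold SE1_T at ht
  cases s
  · simp only [Bool.false_eq_true, if_false, false_imp_iff, true_and, forall_true_left] at ht ⊢
    have h1 : 2 * t * m ≤ 2 * 258 * m := Nat.mul_le_mul_right _ (by omega)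
    omega
  · simp only [if_true, Bool.true_eq_false, false_imp_iff, and_true, forall_true_left] at ht ⊢
    have h1 : 2 * t * m ≤ 2 * 514 * m := Nat.mul_le_mul_right _ (by omega)
    omega

theorem SE1_rad_zero (s : Bool) (m : ℕ) : SE1_rad s m 0 = 1024 * m := by
  unfold SE1_rad
  simp

theorem SE1_rad_T (s : Bool) (m : ℕ) : SE1_rad s m (SE1_T s) = if s = true then 2052 * m else 508 * m := by
  unfold SE1_rad SE1_T
  cases s
  · simp only [Bool.false_eq_true, if_false]
    omega
  · simp only [if_true]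
    omega

/-- extension of one arm -/
theorem SE1_arm (hLH : LH_stmt) (hLC : LC_stmt) (hCH1 : CH1_stmt) (c : V → Bool) (k : Bool) (j : ℕ)
    (s : Bool) (x : V) (m : ℕ) (hm : 1 ≤ m) (l : ℕ) (hl : kol l = k) (N : Set V) (p u : V)
    (hN : N ⊆ if s = true then box x (512 * m) else {v | 2048 * m ≤ sd x v})
    (hp : if s = true then sd x p ≤ 512 * m else 2048 * m ≤ sd x p)
    (hu : sd (zpt x (1024 * m) l) u ≤ 16 * m)
    (hpu : Conn c k (HS s x (1024 * m) \ (N ∪ opp j (zpt x (1024 * m)) (128 * m) k)) p u)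
    (hS : ∃ S, Loop c k (zpt x (1024 * m) l) (16 * m) S) (hF : Full c k m (SE1_gs s x m l)) :
    ∃ w ∈ bd x (nx s (1024 * m)), sd (zpt x (nx s (1024 * m)) l) w ≤ nx s (1024 * m) / 64 ∧
      Conn c k (HS s x (nx s (1024 * m)) \
        (N ∪ opp j (zpt x (nx s (1024 * m))) (nx s (1024 * m) / 8) k)) p w := by
  obtain ⟨S, hS⟩ := hS
  obtain ⟨U, hU1, hU2, hU3⟩ := hCH1 c k m (SE1_gs s x m l) hF (SE1_chn s x m l) (by
    intro h
    have := SE1_gs_mem (s := s) (x := x) (m := m) (l := l) (t := 0) (Nat.zero_le _)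
    rw [h] at this
    simp at this)
  set g₀ := zpt x (1024 * m) l with hg₀
  have hxg₀ : sd x g₀ = 1024 * m := SE1_sd_zpt x (1024 * m) l
  -- the arm meets the big loop
  have hpg : 3 * (16 * m) ≤ sd g₀ p := by
    have h1 := sd_triangle x p g₀
    have h2 := sd_triangle x g₀ p
    rw [sd_comm p g₀] at h1
    cases s
    · simp only [Bool.false_eq_true, if_false] at hp
      omega
    · simp only [if_true] at hp
      omega
  obtain ⟨z, hzS, hz⟩ := hLH c k g₀ (16 * m) S hS _ u p hpu.symm hu hpg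
  have hpz : Con {w | w ∈ HS s x (1024 * m) \ (N ∪ opp j (zpt x (1024 * m)) (128 * m) k) ∧ c w = k} p z :=
    Con.trans hpu hz
  -- points of the loops
  have hne : ∀ (g : V) (ℓ : ℕ) (S' : Set V), Loop c k g ℓ S' → ∃ v, v ∈ S' := by
    rintro g ℓ S' ⟨l', u', h1, -, rfl⟩
    exact ⟨u', h1.mem_left⟩
  have hgU : ∀ t, t ≤ SE1_T s → ∃ v ∈ U, sd (zpt x (SE1_rad s m t) l) v < 3 * m := by
    intro t ht
    obtain ⟨S', h1, h2⟩ := hU3 _ (SE1_gs_mem ht)
    obtain ⟨v, hv⟩ := hne _ _ _ h1
    exact ⟨v, h2 hv, (CH_loop_sub h1 v hv).2.1⟩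
  obtain ⟨a, haU, ha⟩ := hgU 0 (Nat.zero_le _)
  obtain ⟨b, hbU, hb⟩ := hgU (SE1_T s) le_rfl
  rw [SE1_rad_zero, ← hg₀] at ha
  have hxb : sd x (zpt x (SE1_rad s m (SE1_T s)) l) = SE1_rad s m (SE1_T s) := SE1_sd_zpt _ _ _
  have hb' := SE1_rad_T s m
  have hxb2 : if s = true then 2048 * m < sd x b else sd x b < 512 * m := by
    have h1 := sd_triangle x b (zpt x (SE1_rad s m (SE1_T s)) l)
    have h2 := sd_triangle x (zpt x (SE1_rad s m (SE1_T s)) l) b
    rw [sd_comm b] at h1
    cases s
    · simp only [Bool.false_eq_true, if_false] at hb' ⊢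
      omega
    · simp only [if_true] at hb' ⊢
      omega
  have hgb : 3 * (16 * m) ≤ sd g₀ b := by
    have h1 := sd_triangle x b g₀
    have h2 := sd_triangle x g₀ b
    rw [sd_comm b g₀] at h1
    cases s
    · simp only [Bool.false_eq_true, if_false] at hxb2
      omega
    · simp only [if_true] at hxb2
      omega
  obtain ⟨z', hz'S, hz'⟩ := hLH c k g₀ (16 * m) S hS U a b (hU2 a haU b hbU) (by omega) hgb
  have hz'U : z' ∈ U := hz'.mem_right
  -- the union
  set Z : Set V := {w | w ∈ HS s x (1024 * m) \ (N ∪ opp j (zpt x (1024 * m)) (128 * m) k) ∧ c w = k} ∪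
    (S ∪ U) with hZ
  have hpb : Con Z p b := by
    have h1 : Con Z p z := hpz.mono Set.subset_union_left
    have h2 : Con Z z z' := (hLC c k g₀ (16 * m) S hS z hzS z' hz'S).mono
      (fun w hw => Or.inr (Or.inl hw))
    have h3 : Con Z z' b := (hU2 z' hz'U b hbU).mono (fun w hw => Or.inr (Or.inr hw))
    exact (h1.trans h2).trans h3
  have hZk : ∀ w ∈ Z, c w = k := by
    rintro w (hw | hw | hw)
    · exact hw.2
    · exact (CH_loop_sub hS w hw).2.2
    · exact (hU1 w hw).2
  -- positions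
  have posS : ∀ w ∈ S, 976 * m < sd x w ∧ sd x w < 1072 * m := by
    intro w hw
    have h0 := (CH_loop_sub hS w hw).2.1
    have h1 := sd_triangle x w g₀
    have h2 := sd_triangle x g₀ w
    rw [sd_comm w g₀] at h1
    omega
  have posU : ∀ w ∈ U, ∃ r, sd (zpt x r l) w < 3 * m ∧ (s = true → 1024 * m ≤ r) ∧
      (s = false → 508 * m ≤ r ∧ r ≤ 1024 * m) := by
    intro w hw
    obtain ⟨g, hg, h1⟩ := (hU1 w hw).1
    obtain ⟨t, ht, rfl⟩ := SE1_mem_gs hg
    have h2 := SE1_rad_bd (s := s) (m := m) ht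
    exact ⟨_, h1, fun h => (h2.1 h).1, h2.2⟩
  have hopp : ∀ (l' : ℕ) (w : V) (R : ℕ), kol l' ≠ k → w ∈ U → R ≤ sd (zpt x R l') w + 3 * m := by
    intro l' w R hl' hw
    obtain ⟨r, h1, -, -⟩ := posU w hw
    have h2 := (SE1_zpt_diff x R r l' l (SE1_kol (by rw [hl]; exact hl'))).1
    have h3 := sd_triangle (zpt x R l') w (zpt x r l)
    rw [sd_comm w] at h3
    omega
  cases s
  · -- inner side
    have hn : nx false (1024 * m) = 512 * m := by
      unfold nx
      simp only [Bool.false_eq_true, if_false]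
      omega
    simp only [Bool.false_eq_true, if_false] at hN hp hxb2
    rw [hn]
    obtain ⟨w, hw1, hw2, -⟩ := hpb.enter (x := x) (m := 512 * m) (by omega) (by omega)
    have hwZ : w ∈ Z := (Con.mem_right hw2).1
    have hwU : w ∈ U := by
      rcases hwZ with hw | hw | hw
      · have h1 : 1024 * m ≤ sd x w := hw.1.1
        omega
      · have := (posS w hw).1
        omega
      · exact hw
    refine ⟨w, hw1, ?_, ?_⟩
    · obtain ⟨r, h1, -, h3⟩ := posU w hwU
      have h4 := sd_triangle x w (zpt x r l)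
      have h5 := sd_triangle x (zpt x r l) w
      rw [sd_comm w] at h4
      have h6 := SE1_sd_zpt x r l
      have h7 := SE1_zpt_same x (512 * m) r l
      have h8 := sd_triangle (zpt x (512 * m) l) (zpt x r l) w
      rcases le_total (512 * m) r with h9 | h9
      · rw [min_eq_left h9, max_eq_right h9] at h7
        omega
      · rw [min_eq_right h9, max_eq_left h9] at h7
        omega
    · refine Con.mono ?_ hw2
      rintro v ⟨hvZ, hv⟩
      refine ⟨⟨?_, ?_⟩, hZk v hvZ⟩
      · exact hv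
      · rintro (hvN | ⟨l', hl'1, hl'2, hl'3⟩)
        · have h1 : 2048 * m ≤ sd x v := hN hvN
          rcases hvZ with hv' | hv' | hv'
          · exact hv'.1.2 (Or.inl hvN)
          · have := (posS v hv').2
            omega
          · obtain ⟨r, h1', -, h3⟩ := posU v hv'
            have h5 := sd_triangle x (zpt x r l) v
            have h6 := SE1_sd_zpt x r l
            have h7 := h3 rfl
            omega
        · have h6 := SE1_sd_zpt x (512 * m) l'
          have h5 := sd_triangle x (zpt x (512 * m) l') v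
          rcases hvZ with hv' | hv' | hv'
          · have h1 : 1024 * m ≤ sd x v := hv'.1.1
            omega
          · have := (posS v hv').1
            omega
          · have := hopp l' v (512 * m) hl'2 hv'
            omega
  · -- outer side
    have hn : nx true (1024 * m) = 2048 * m := by
      unfold nx
      simp only [if_true]
      omega
    simp only [if_true] at hN hp hxb2
    rw [hn]
    obtain ⟨w, hw1, hw2, -⟩ := hpb.exit (x := x) (m := 2048 * m) (by omega) (by omega)
    have hwZ : w ∈ Z := (Con.mem_right hw2).1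
    have hwU : w ∈ U := by
      rcases hwZ with hw | hw | hw
      · have h1 : sd x w ≤ 1024 * m := hw.1.1
        omega
      · have := (posS w hw).2
        omega
      · exact hw
    refine ⟨w, hw1, ?_, ?_⟩
    · obtain ⟨r, h1, -, h3⟩ := posU w hwU
      have h4 := sd_triangle x w (zpt x r l)
      have h5 := sd_triangle x (zpt x r l) w
      rw [sd_comm w] at h4
      have h6 := SE1_sd_zpt x r l
      have h7 := SE1_zpt_same x (2048 * m) r l
      have h8 := sd_triangle (zpt x (2048 * m) l) (zpt x r l) w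
      rcases le_total (2048 * m) r with h9 | h9
      · rw [min_eq_left h9, max_eq_right h9] at h7
        omega
      · rw [min_eq_right h9, max_eq_left h9] at h7
        omega
    · refine Con.mono ?_ hw2
      rintro v ⟨hvZ, hv⟩
      refine ⟨⟨?_, ?_⟩, hZk v hvZ⟩
      · exact hv
      · rintro (hvN | ⟨l', hl'1, hl'2, hl'3⟩)
        · have h1 : sd x v ≤ 512 * m := hN hvN
          rcases hvZ with hv' | hv' | hv'
          · exact hv'.1.2 (Or.inl hvN)
          · have := (posS v hv').1
            omega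
          · obtain ⟨r, h1', h3, -⟩ := posU v hv'
            have h5 := sd_triangle x v (zpt x r l)
            rw [sd_comm v] at h5
            have h6 := SE1_sd_zpt x r l
            have h7 := h3 rfl
            omega
        · have h6 := SE1_sd_zpt x (2048 * m) l'
          have h5 := sd_triangle x v (zpt x (2048 * m) l')
          rw [sd_comm v] at h5
          rcases hvZ with hv' | hv' | hv'
          · have h1 : sd x v ≤ 1024 * m := hv'.1.1
            omega
          · have := (posS v hv').2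
            omega
          · have := hopp l' v (2048 * m) hl'2 hv'
            omega

/-! ## Lists of loops of several sizes -/

/-- loops of colour `k` around all cells of the list (cells with their sizes) -/
def SE1_Full (c : V → Bool) (k : Bool) (L : List (V × ℕ)) : Prop :=
  ∀ a ∈ L, ∃ S, Loop c k a.1 a.2 S

/-- the region on which it depends -/
def SE1_reg (L : List (V × ℕ)) : Set V := {v | ∃ a ∈ L, sd a.1 v < 3 * a.2}

theorem SE1_reg_finite (L : List (V × ℕ)) : (SE1_reg L).Finite := by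
  have h1 : SE1_reg L ⊆ ⋃ a ∈ {a | a ∈ L}, box a.1 (3 * a.2) := by
    rintro v ⟨g, hg, hv⟩
    simp only [Set.mem_iUnion]
    exact ⟨g, hg, le_of_lt hv⟩
  exact (Set.Finite.biUnion (List.finite_toSet L) fun a _ => box_finite a.1 (3 * a.2)).subset h1

theorem SE1_Full_loc (k : Bool) (L : List (V × ℕ)) :
    Loc (Ev fun c => SE1_Full c k L) (SE1_reg L) ∧ Mon k (Ev fun c => SE1_Full c k L) := by
  constructor
  · refine Loc.ev (SE1_reg_finite L) ?_
    intro c c' hc
    constructor
    · intro h a ha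
      obtain ⟨S, hS⟩ := h a ha
      exact ⟨S, CH_loop_colour (fun v hv hv' => (hc v ⟨a, ha, hv⟩) ▸ hv') hS⟩
    · intro h a ha
      obtain ⟨S, hS⟩ := h a ha
      exact ⟨S, CH_loop_colour (fun v hv hv' => (hc v ⟨a, ha, hv⟩).symm ▸ hv') hS⟩
  · refine Mon.ev ?_
    intro c c' hc h a ha
    obtain ⟨S, hS⟩ := h a ha
    exact ⟨S, CH_loop_colour (fun v _ => hc v) hS⟩

theorem SE1_Full_prob (hfkg : Bfkg_stmt) (hsq : Bsq_stmt) (c₀ : ℝ) (k : Bool) (ρ : V → ℝ)
    (L : List (V × ℕ)) (hρ : Profile ρ) (hc : 0 ≤ c₀)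
    (hp : ∀ a ∈ L, c₀ ≤ Pr (Ev fun c => ∃ S, Loop c k a.1 a.2 S)) :
    c₀ ^ (2 * L.length) ≤ Q ρ (Ev fun c => SE1_Full c k L) (Ev fun c => SE1_Full c k L) := by
  induction L with
  | nil =>
    have h1 : (Ev fun c => SE1_Full c k []) = Set.univ := by
      ext b
      simp [Ev, SE1_Full]
    rw [h1, CH_Q_univ]
    simp
  | cons a L ih =>
    have h1 : (Ev fun c => SE1_Full c k (a :: L)) =
        (Ev fun c => SE1_Full c k [a]) ∩ Ev fun c => SE1_Full c k L := by
      ext b
      simp only [Ev, SE1_Full, List.mem_cons, forall_eq_or_imp, Set.mem_setOf_eq, Set.mem_inter_iff,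
        List.not_mem_nil, false_imp_iff, implies_true, and_true]
    have h2 : (Ev fun c => ∃ S, Loop c k a.1 a.2 S) = Ev fun c => SE1_Full c k [a] := by
      ext b
      simp [Ev, SE1_Full]
    have hL1 := SE1_Full_loc k [a]
    have hL2 := SE1_Full_loc k L
    have h3 := hfkg ρ k _ _ (SE1_reg [a] ∪ SE1_reg L) (hL1.1.mono Set.subset_union_left)
      (hL2.1.mono Set.subset_union_right) hL1.2 hL2.2
    have h4 := hsq ρ _ _ hρ hL1.1
    have h5 := hp a (by simp)
    rw [h2] at h5
    have h6 : c₀ ^ 2 ≤ Q ρ (Ev fun c => SE1_Full c k [a]) (Ev fun c => SE1_Full c k [a]) :=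
      le_trans (pow_le_pow_left₀ hc h5 2) h4
    rw [h1]
    refine le_trans ?_ h3
    have e1 : c₀ ^ (2 * (a :: L).length) = c₀ ^ 2 * c₀ ^ (2 * L.length) := by
      rw [List.length_cons]
      ring
    rw [e1]
    exact mul_le_mul h6 (ih fun b hb => hp b (List.mem_cons_of_mem _ hb)) (pow_nonneg hc _)
      (le_trans (pow_nonneg hc 2) h6)

theorem SE1_Pr_le_one (F : Set (V → Bool)) : Pr F ≤ 1 := by
  unfold Pr
  have : IsProbabilityMeasure P1 := by
    unfold P1
    infer_instance
  exact measureReal_le_one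

theorem SE1_Q_nonneg (ρ : V → ℝ) (F G : Set (V → Bool)) : 0 ≤ Q ρ F G := by
  unfold Q
  exact measureReal_nonneg

/-! ## The cells -/

/-- the cells for the standard point number `l` -/
def SE1_cells (s : Bool) (x : V) (m l : ℕ) : List (V × ℕ) :=
  (zpt x (1024 * m) l, 16 * m) :: (SE1_gs s x m l).map fun g => (g, m)

/-- all cells of colour `k` -/
def SE1_all (j : ℕ) (s : Bool) (x : V) (m : ℕ) (k : Bool) : List (V × ℕ) :=
  ((List.range j).filter fun l => decide (kol l = k)).flatMap (SE1_cells s x m)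

theorem SE1_all_mem {j : ℕ} {s : Bool} {x : V} {m : ℕ} {k : Bool} {a : V × ℕ}
    (h : a ∈ SE1_all j s x m k) : ∃ l < j, kol l = k ∧ a ∈ SE1_cells s x m l := by
  unfold SE1_all at h
  rw [List.mem_flatMap] at h
  obtain ⟨l, hl, ha⟩ := h
  rw [List.mem_filter, List.mem_range] at hl
  exact ⟨l, hl.1, of_decide_eq_true hl.2, ha⟩

theorem SE1_mem_all {j : ℕ} {s : Bool} {x : V} {m : ℕ} {k : Bool} {a : V × ℕ} {l : ℕ} (hl : l < j)
    (hk : kol l = k) (h : a ∈ SE1_cells s x m l) : a ∈ SE1_all j s x m k := by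
  unfold SE1_all
  rw [List.mem_flatMap]
  exact ⟨l, List.mem_filter.2 ⟨List.mem_range.2 hl, decide_eq_true hk⟩, h⟩

theorem SE1_cells_mem {s : Bool} {x : V} {m l : ℕ} {a : V × ℕ} (h : a ∈ SE1_cells s x m l) :
    (a = (zpt x (1024 * m) l, 16 * m)) ∨ ∃ t, t ≤ SE1_T s ∧ a = (zpt x (SE1_rad s m t) l, m) := by
  unfold SE1_cells at h
  rcases List.mem_cons.1 h with h | h
  · exact Or.inl h
  · rw [List.mem_map] at h
    obtain ⟨g, hg, rfl⟩ := h
    obtain ⟨t, ht, rfl⟩ := SE1_mem_gs hg
    exact Or.inr ⟨t, ht, rfl⟩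

theorem SE1_length (j : ℕ) (hj : j = 2 ∨ j = 4) (s : Bool) (x : V) (m : ℕ) (k : Bool) :
    (SE1_all j s x m k).length ≤ 1040 := by
  have h1 : ∀ l, (SE1_cells s x m l).length ≤ 516 := by
    intro l
    unfold SE1_cells SE1_gs SE1_T
    rw [List.length_cons, List.length_map, List.length_map, List.length_range]
    split_ifs <;> omega
  unfold SE1_all
  rw [List.length_flatMap]
  rcases hj with rfl | rfl
  · cases k
    · have e : (List.range 2).filter (fun l => decide (kol l = false)) = [1] := by decide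
      rw [e]
      have := h1 1
      simp only [List.map_cons, List.map_nil, List.sum_cons, List.sum_nil]
      omega
    · have e : (List.range 2).filter (fun l => decide (kol l = true)) = [0] := by decide
      rw [e]
      have := h1 0
      simp only [List.map_cons, List.map_nil, List.sum_cons, List.sum_nil]
      omega
  · cases k
    · have e : (List.range 4).filter (fun l => decide (kol l = false)) = [1, 3] := by decide
      rw [e]
      have := h1 1
      have := h1 3
      simp only [List.map_cons, List.map_nil, List.sum_cons, List.sum_nil]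
      omega
    · have e : (List.range 4).filter (fun l => decide (kol l = true)) = [0, 2] := by decide
      rw [e]
      have := h1 0
      have := h1 2
      simp only [List.map_cons, List.map_nil, List.sum_cons, List.sum_nil]
      omega

/-- positions of the sites in the regions -/
theorem SE1_reg_pos {j : ℕ} {s : Bool} {x : V} {m : ℕ} {k : Bool} {v : V}
    (h : v ∈ SE1_reg (SE1_all j s x m k)) : ∃ l < j, kol l = k ∧ ∃ r,
      (sd (zpt x r l) v < 48 * m ∧ r = 1024 * m ∨ sd (zpt x r l) v < 3 * m) ∧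
      (s = true → 1024 * m ≤ r) ∧ (s = false → 508 * m ≤ r ∧ r ≤ 1024 * m) := by
  obtain ⟨a, ha, hv⟩ := h
  obtain ⟨l, hl, hk, hal⟩ := SE1_all_mem ha
  refine ⟨l, hl, hk, ?_⟩
  rcases SE1_cells_mem hal with rfl | ⟨t, ht, rfl⟩
  · refine ⟨1024 * m, Or.inl ⟨?_, rfl⟩, fun _ => le_rfl, fun _ => ⟨by omega, le_rfl⟩⟩
    simp only at hv
    omega
  · have h2 := SE1_rad_bd (s := s) (m := m) ht
    exact ⟨_, Or.inr hv, fun h => (h2.1 h).1, h2.2⟩

theorem SE1_disj (j : ℕ) (s : Bool) (x : V) (m : ℕ) :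
    Disjoint (SE1_reg (SE1_all j s x m true)) (SE1_reg (SE1_all j s x m false)) := by
  rw [Set.disjoint_left]
  intro v h1 h2
  obtain ⟨l, -, hk, r, hr, hr1, hr2⟩ := SE1_reg_pos h1
  obtain ⟨l', -, hk', r', hr', hr1', hr2'⟩ := SE1_reg_pos h2
  have h3 := (SE1_zpt_diff x r r' l l' (SE1_kol (by rw [hk, hk']; simp))).1
  have h4 := sd_triangle (zpt x r l) v (zpt x r' l')
  rw [sd_comm v] at h4
  cases s
  · have := hr2 rfl
    omega
  · have := hr1 rfl
    omega

/-- the region of the arms of colour `k` does not meet the cells of the other colour -/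
theorem SE1_avoid (j : ℕ) (s : Bool) (x : V) (m : ℕ) (hm : 1 ≤ m) (k : Bool) (N : Set V) (v : V)
    (hv : v ∈ HS s x (1024 * m) \ (N ∪ opp j (zpt x (1024 * m)) (128 * m) k)) :
    v ∉ SE1_reg (SE1_all j s x m (!k)) := by
  intro h
  obtain ⟨l, hl, hk, r, hr, hr1, hr2⟩ := SE1_reg_pos h
  obtain ⟨hv1, hv2⟩ := hv
  apply hv2
  refine Or.inr ⟨l, hl, by rw [hk]; simp, ?_⟩
  have h5 := sd_triangle x v (zpt x r l)
  rw [sd_comm v] at h5
  have h5' := sd_triangle x (zpt x r l) v
  have h6 := SE1_sd_zpt x r l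
  have h7 := SE1_zpt_same x (1024 * m) r l
  have h8 := sd_triangle (zpt x (1024 * m) l) (zpt x r l) v
  cases s
  · have h9 := hr2 rfl
    have h1 : 1024 * m ≤ sd x v := hv1
    rw [min_eq_right h9.2, max_eq_left h9.2] at h7
    omega
  · have h9 := hr1 rfl
    have h1 : sd x v ≤ 1024 * m := hv1
    rw [min_eq_left h9, max_eq_right h9] at h7
    omega

/-! ## Locality and monotonicity of the marked arms -/

theorem SE1_MrkC_mono {c c' : V → Bool} {j : ℕ} {s : Bool} {x : V} {n : ℕ} {D : Dat} {y : ℕ → V}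
    {a A : ℕ} {k : Bool} (hc : ∀ v ∈ HS s x n \ (D.N k ∪ opp j y A k), c v = k → c' v = k)
    (h : MrkC c j s x n D y a A k) : MrkC c' j s x n D y a A k := by
  rcases h with h | h
  · left
    intro i hi hk
    obtain ⟨p, hp, u, hu, hyu, hpu⟩ := h i hi hk
    exact ⟨p, hp, u, hu, hyu, hpu.colour_mono hc⟩
  · right
    intro i hi hk
    obtain ⟨p, hp, u, hu, hyu, hpu⟩ := h i hi hk
    exact ⟨p, hp, u, hu, hyu, hpu.colour_mono hc⟩

theorem SE1_R_finite {j : ℕ} {s : Bool} {x : V} {n r : ℕ} {D : Dat} {y : ℕ → V}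
    {A : ℕ} {k : Bool} (hD : D.ok s x r) : (HS s x n \ (D.N k ∪ opp j y A k)).Finite := by
  cases s
  · unfold Dat.ok at hD
    simp only [Bool.false_eq_true, if_false] at hD
    obtain ⟨-, -, M, hM⟩ := hD
    refine (box_finite x M).subset ?_
    rintro v ⟨-, hv⟩
    by_contra h
    apply hv
    refine Or.inl (hM k ?_)
    have : ¬ sd x v ≤ M := h
    exact not_le.1 this
  · exact (box_finite x n).subset fun v hv => hv.1

theorem SE1_MrkC_loc {j : ℕ} {s : Bool} {x : V} {n r : ℕ} {D : Dat} {y : ℕ → V}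
    {a A : ℕ} {k : Bool} (hD : D.ok s x r) :
    Loc (Ev fun c => MrkC c j s x n D y a A k) (HS s x n \ (D.N k ∪ opp j y A k)) ∧
      Mon k (Ev fun c => MrkC c j s x n D y a A k) := by
  constructor
  · refine Loc.ev (SE1_R_finite hD) ?_
    intro c c' hc
    exact ⟨SE1_MrkC_mono fun v hv hv' => (hc v hv) ▸ hv',
      SE1_MrkC_mono fun v hv hv' => (hc v hv).symm ▸ hv'⟩
  · refine Mon.ev ?_
    intro c c' hc h
    exact SE1_MrkC_mono (fun v _ => hc v) h

/-! ## The extension -/

theorem SE1_ext (hLH : LH_stmt) (hLC : LC_stmt) (hCH1 : CH1_stmt) (c : V → Bool) (k : Bool) (j : ℕ)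
    (hj : j = 2 ∨ j = 4) (s : Bool) (x : V) (m : ℕ) (hm : 1 ≤ m) (D : Dat)
    (hD : D.ok s x (if s = true then 512 * m else 2048 * m))
    (hM : MrkC c j s x (1024 * m) D (zpt x (1024 * m)) (1024 * m / 64) (1024 * m / 8) k)
    (hF : SE1_Full c k (SE1_all j s x m k)) :
    MrkC c j s x (nx s (1024 * m)) D (zpt x (nx s (1024 * m))) (nx s (1024 * m) / 64)
      (nx s (1024 * m) / 8) k := by
  have e1 : 1024 * m / 64 = 16 * m := by omega
  have e2 : 1024 * m / 8 = 128 * m := by omega
  rw [e1, e2] at hM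
  have hN : D.N k ⊆ if s = true then box x (512 * m) else {v | 2048 * m ≤ sd x v} := by
    cases s
    · unfold Dat.ok at hD
      simp only [Bool.false_eq_true, if_false] at hD ⊢
      exact hD.2.1 k
    · unfold Dat.ok at hD
      simp only [if_true] at hD ⊢
      exact hD.2 k
  have hI : ∀ i, ∀ p ∈ D.I i, if s = true then sd x p ≤ 512 * m else 2048 * m ≤ sd x p := by
    intro i p hp
    cases s
    · unfold Dat.ok at hD
      simp only [Bool.false_eq_true, if_false] at hD ⊢
      exact hD.1 i hp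
    · unfold Dat.ok at hD
      simp only [if_true] at hD ⊢
      exact hD.1 i hp
  have hloop : ∀ l < j, kol l = k → (∃ S, Loop c k (zpt x (1024 * m) l) (16 * m) S) ∧
      Full c k m (SE1_gs s x m l) := by
    intro l hl hk
    constructor
    · have : (zpt x (1024 * m) l, 16 * m) ∈ SE1_cells s x m l := List.mem_cons_self
      exact hF _ (SE1_mem_all hl hk this)
    · intro g hg
      have : (g, m) ∈ SE1_cells s x m l := by
        unfold SE1_cells
        refine List.mem_cons_of_mem _ ?_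
        rw [List.mem_map]
        exact ⟨g, hg, rfl⟩
      exact hF _ (SE1_mem_all hl hk this)
  rcases hM with hM | hM
  · left
    intro i hi hk
    obtain ⟨p, hp, u, hu, hyu, hpu⟩ := hM i hi hk
    obtain ⟨hS, hFl⟩ := hloop i hi hk
    obtain ⟨w, hw1, hw2, hw3⟩ := SE1_arm hLH hLC hCH1 c k j s x m hm i hk (D.N k) p u hN (hI i p hp)
      hyu hpu hS hFl
    exact ⟨p, hp, w, hw1, hw2, hw3⟩
  · right
    intro i hi hk
    obtain ⟨p, hp, u, hu, hyu, hpu⟩ := hM i hi hk
    have hi' : (i + 2) % j < j := Nat.mod_lt _ (by omega)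
    have hk' : kol ((i + 2) % j) = k := by
      rw [← hk]
      unfold kol
      have : (i + 2) % j % 2 = i % 2 := by
        rcases hj with rfl | rfl <;> omega
      rw [this]
    obtain ⟨hS, hFl⟩ := hloop _ hi' hk'
    obtain ⟨w, hw1, hw2, hw3⟩ := SE1_arm hLH hLC hCH1 c k j s x m hm _ hk' (D.N k) p u hN (hI i p hp)
      hyu hpu hS hFl
    exact ⟨p, hp, w, hw1, hw2, hw3⟩

theorem SE1 (hLH : LH_stmt) (hLC : LC_stmt) (hCH1 : CH1_stmt) (hC1 : C1_stmt) (hfkg : Bfkg_stmt)
    (hsq : Bsq_stmt) (hgen : Bgen_stmt) (hmono : Bmono_stmt) : SE1_stmt := by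
  obtain ⟨c₀, hc₀, ℓ₀, hℓ₀, hC⟩ := hC1
  have hc₁ : c₀ ≤ 1 := le_trans (hC true (0, 0) ℓ₀ le_rfl) (SE1_Pr_le_one _)
  refine ⟨c₀ ^ 2080 * c₀ ^ 2080, by positivity, ℓ₀ + 10, ?_⟩
  intro j s ρ x D Xp Xm i hj hρ _ hi hD hX
  obtain ⟨m, hmdef⟩ : ∃ m, m = 2 ^ (i - 10) := ⟨_, rfl⟩
  have hm1 : 1 ≤ m := by rw [hmdef]; exact Nat.one_le_two_pow
  have hmℓ : ℓ₀ ≤ m := by
    have h1 : i - 10 < 2 ^ (i - 10) := Nat.lt_two_pow_self
    rw [hmdef]
    omega
  have e0 : 2 ^ i = 1024 * m := by
    rw [hmdef, show (1024 : ℕ) = 2 ^ 10 by norm_num, ← pow_add]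
    congr 1
    omega
  have e1 : 2 ^ (i - 1) = 512 * m := by
    rw [hmdef, show (512 : ℕ) = 2 ^ 9 by norm_num, ← pow_add]
    congr 1
    omega
  have e2 : 2 ^ (i + 1) = 2048 * m := by
    rw [hmdef, show (2048 : ℕ) = 2 ^ 11 by norm_num, ← pow_add]
    congr 1
    omega
  rw [e1, e2] at hD hX
  rw [e0]
  obtain ⟨hXp, hXm, hXl⟩ := hX
  -- the sets
  have hSp := SE1_Full_loc true (SE1_all j s x m true)
  have hSm := SE1_Full_loc false (SE1_all j s x m false)
  have hMp := SE1_MrkC_loc (j := j) (n := 1024 * m) (y := zpt x (1024 * m)) (a := 1024 * m / 64)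
    (A := 1024 * m / 8) (k := true) hD
  have hMm := SE1_MrkC_loc (j := j) (n := 1024 * m) (y := zpt x (1024 * m)) (a := 1024 * m / 64)
    (A := 1024 * m / 8) (k := false) hD
  have e4 : 1024 * m / 8 = 128 * m := by omega
  rw [e4] at hMp hMm
  -- the additional events avoid all cells
  have hXav : ∀ (k : Bool) (v : V), v ∈ SE1_reg (SE1_all j s x m k) →
      v ∉ (if s = true then box x (512 * m) else {v | 2048 * m ≤ sd x v}) := by
    intro k v hv
    obtain ⟨l, -, hk, r, hr, hr1, hr2⟩ := SE1_reg_pos hv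
    have h5 := sd_triangle x v (zpt x r l)
    rw [sd_comm v] at h5
    have h5' := sd_triangle x (zpt x r l) v
    have h6 := SE1_sd_zpt x r l
    cases s
    · simp only [Bool.false_eq_true, if_false, Set.mem_setOf_eq]
      have := hr2 rfl
      omega
    · simp only [if_true]
      intro h
      have h7 : sd x v ≤ 512 * m := h
      have := hr1 rfl
      omega
  have hXpl : Loc Xp (if s = true then box x (512 * m) else {v | 2048 * m ≤ sd x v}) := by
    cases s
    · simp only [Bool.false_eq_true, if_false] at hXl ⊢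
      exact hXl.1
    · simp only [if_true] at hXl ⊢
      exact hXl.1
  have hXml : Loc Xm (if s = true then box x (512 * m) else {v | 2048 * m ≤ sd x v}) := by
    cases s
    · simp only [Bool.false_eq_true, if_false] at hXl ⊢
      exact hXl.2
    · simp only [if_true] at hXl ⊢
      exact hXl.2
  have hdisj := SE1_disj j s x m
  have key := hgen ρ (Xp ∩ Ev fun c => MrkC c j s x (1024 * m) D (zpt x (1024 * m)) (1024 * m / 64)
      (1024 * m / 8) true)
    (Xm ∩ Ev fun c => MrkC c j s x (1024 * m) D (zpt x (1024 * m)) (1024 * m / 64)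
      (1024 * m / 8) false)
    (Ev fun c => SE1_Full c true (SE1_all j s x m true))
    (Ev fun c => SE1_Full c false (SE1_all j s x m false))
    ((SE1_reg (SE1_all j s x m true) ∪ SE1_reg (SE1_all j s x m false))ᶜ)
    (SE1_reg (SE1_all j s x m true)) (SE1_reg (SE1_all j s x m false))
    (by
      rw [Set.disjoint_left]
      exact fun v hv hv' => hv (Or.inl hv'))
    (by
      rw [Set.disjoint_left]
      exact fun v hv hv' => hv (Or.inr hv'))
    hdisj
    (by
      rw [e4]
      refine (hXpl.inter hMp.1).mono ?_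
      intro v hv
      have h1 : v ∉ SE1_reg (SE1_all j s x m false) := by
        rcases hv with hv | hv
        · exact fun h => hXav false v h hv
        · exact SE1_avoid j s x m hm1 true (D.N true) v hv
      by_cases h2 : v ∈ SE1_reg (SE1_all j s x m true)
      · exact Or.inr h2
      · exact Or.inl fun h => h.elim h2 h1)
    (by
      rw [e4]
      refine (hXml.inter hMm.1).mono ?_
      intro v hv
      have h1 : v ∉ SE1_reg (SE1_all j s x m true) := by
        rcases hv with hv | hv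
        · exact fun h => hXav true v h hv
        · exact SE1_avoid j s x m hm1 false (D.N false) v hv
      by_cases h2 : v ∈ SE1_reg (SE1_all j s x m false)
      · exact Or.inr h2
      · exact Or.inl fun h => h.elim h1 h2)
    hSp.1 hSm.1
    (by
      rw [e4]
      exact hXp.inter hMp.2)
    (by
      rw [e4]
      exact hXm.inter hMm.2)
    hSp.2 hSm.2
  have hset : ∀ n, (Xp ∩ Ev fun c => MrkC c j s x n D (zpt x n) (n / 64) (n / 8) true) ∩
      (Xm ∩ Ev fun c => MrkC c j s x n D (zpt x n) (n / 64) (n / 8) false) =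
      (Xp ∩ Xm) ∩ Ev fun c => Std c j s x n D := by
    intro n
    ext b
    unfold Std Mrk Ev
    simp only [Set.mem_inter_iff, Set.mem_setOf_eq]
    tauto
  rw [hset (1024 * m)] at key
  have hincl : ((Xp ∩ Xm) ∩ Ev fun c => Std c j s x (1024 * m) D) ∩
      ((Ev fun c => SE1_Full c true (SE1_all j s x m true)) ∩
        Ev fun c => SE1_Full c false (SE1_all j s x m false)) ⊆
      (Xp ∩ Xm) ∩ Ev fun c => Std c j s x (nx s (1024 * m)) D := by
    rintro b ⟨⟨hb1, hb2, hb3⟩, hb4, hb5⟩
    exact ⟨hb1, SE1_ext hLH hLC hCH1 (col b) true j hj s x m hm1 D hD hb2 hb4,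
      SE1_ext hLH hLC hCH1 (col b) false j hj s x m hm1 D hD hb3 hb5⟩
  have hm := hmono ρ _ _ _ _ hincl hincl
  have hloops : ∀ k : Bool, ∀ a ∈ SE1_all j s x m k,
      c₀ ≤ Pr (Ev fun c => ∃ S, Loop c k a.1 a.2 S) := by
    intro k a ha
    apply hC
    obtain ⟨l, -, -, hal⟩ := SE1_all_mem ha
    rcases SE1_cells_mem hal with rfl | ⟨t, -, rfl⟩
    · simp only
      omega
    · exact hmℓ
  have hP : ∀ k : Bool, c₀ ^ 2080 ≤ Q ρ (Ev fun c => SE1_Full c k (SE1_all j s x m k))
      (Ev fun c => SE1_Full c k (SE1_all j s x m k)) := by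
    intro k
    refine le_trans ?_ (SE1_Full_prob hfkg hsq c₀ k ρ _ hρ hc₀.le (hloops k))
    apply pow_le_pow_of_le_one hc₀.le hc₁
    have := SE1_length j hj s x m k
    omega
  have hprod : c₀ ^ 2080 * c₀ ^ 2080 ≤
      Q ρ (Ev fun c => SE1_Full c true (SE1_all j s x m true))
        (Ev fun c => SE1_Full c true (SE1_all j s x m true)) *
      Q ρ (Ev fun c => SE1_Full c false (SE1_all j s x m false))
        (Ev fun c => SE1_Full c false (SE1_all j s x m false)) :=
    mul_le_mul (hP true) (hP false) (by positivity) (SE1_Q_nonneg _ _ _)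
  have hQ := SE1_Q_nonneg ρ ((Xp ∩ Xm) ∩ Ev fun c => Std c j s x (1024 * m) D)
    ((Xp ∩ Xm) ∩ Ev fun c => Std c j s x (1024 * m) D)
  calc c₀ ^ 2080 * c₀ ^ 2080 * Q ρ ((Xp ∩ Xm) ∩ Ev fun c => Std c j s x (1024 * m) D)
        ((Xp ∩ Xm) ∩ Ev fun c => Std c j s x (1024 * m) D)
      ≤ (Q ρ (Ev fun c => SE1_Full c true (SE1_all j s x m true))
        (Ev fun c => SE1_Full c true (SE1_all j s x m true)) *
      Q ρ (Ev fun c => SE1_Full c false (SE1_all j s x m false))
        (Ev fun c => SE1_Full c false (SE1_all j s x m false))) *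
        Q ρ ((Xp ∩ Xm) ∩ Ev fun c => Std c j s x (1024 * m) D)
        ((Xp ∩ Xm) ∩ Ev fun c => Std c j s x (1024 * m) D) :=
        mul_le_mul_of_nonneg_right hprod hQ
    _ = Q ρ ((Xp ∩ Xm) ∩ Ev fun c => Std c j s x (1024 * m) D)
        ((Xp ∩ Xm) ∩ Ev fun c => Std c j s x (1024 * m) D) *
        (Q ρ (Ev fun c => SE1_Full c true (SE1_all j s x m true))
        (Ev fun c => SE1_Full c true (SE1_all j s x m true)) *
      Q ρ (Ev fun c => SE1_Full c false (SE1_all j s x m false))
        (Ev fun c => SE1_Full c false (SE1_all j s x m false))) := by ring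
    _ ≤ _ := key
    _ ≤ _ := hm

end DP
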