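import Pool.Agent.helper96.DP.SpecE
import Pool.Agent.helper96.DP.Basic

/-!
# Project dp, module CH: chains of loops (CH1, CH2, CH3, CH4)
-/

namespace DP

open MeasureTheory

theorem CH_loop_sub {c : V → Bool} {k : Bool} {g : V} {ℓ : ℕ} {S : Set V} (h : Loop c k g ℓ S) :
    ∀ v ∈ S, ℓ < sd g v ∧ sd g v < 3 * ℓ ∧ c v = k := by
  obtain ⟨l, u, hl, -, rfl⟩ := h
  intro v hv
  exact hl.subset v hv

theorem CH_loop_colour {c c' : V → Bool} {k : Bool} {g : V} {ℓ : ℕ} {S : Set V}
    (hc : ∀ v, sd g v < 3 * ℓ → c v = k → c' v = k) (h : Loop c k g ℓ S) : Loop c' k g ℓ S := by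
  obtain ⟨l, u, hl, h1, h2⟩ := h
  refine ⟨l, u, hl.mono ?_, h1, h2⟩
  rintro w ⟨hw1, hw2, hw3⟩
  exact ⟨hw1, hw2, hc w hw2 hw3⟩

/-- chains of loops are connected -/
theorem CH1 (hLC : LC_stmt) (hLN : LN_stmt) : CH1_stmt := by
  intro c k ℓ gs hF hC hne
  induction gs with
  | nil => exact absurd rfl hne
  | cons g gs ih =>
    obtain ⟨S, hS⟩ := hF g (by simp)
    cases gs with
    | nil =>
      refine ⟨S, ?_, ?_, ?_⟩
      · intro v hv
        obtain ⟨h1, h2, h3⟩ := CH_loop_sub hS v hv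
        exact ⟨⟨g, by simp, h2⟩, h3⟩
      · exact hLC c k g ℓ S hS
      · intro g' hg'
        rw [List.mem_singleton] at hg'
        subst hg'
        exact ⟨S, hS, subset_rfl⟩
    | cons g' gs =>
      have hC' : gnb ℓ g g' ∧ Chn ℓ (g' :: gs) := List.isChain_cons_cons.1 hC
      obtain ⟨U, hU1, hU2, hU3⟩ := ih (fun a ha => hF a (List.mem_cons_of_mem _ ha)) hC'.2
        (by simp)
      obtain ⟨S', hS', hSU⟩ := hU3 g' (by simp)
      obtain ⟨z₀, hz1, hz2⟩ := hLN c k g g' ℓ S S' hC'.1 hS hS'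
      have hz2' : z₀ ∈ U := hSU hz2
      have key : ∀ z ∈ S ∪ U, Con (S ∪ U) z z₀ := by
        intro z hz
        rcases hz with hz | hz
        · exact (hLC c k g ℓ S hS z hz z₀ hz1).mono Set.subset_union_left
        · exact (hU2 z hz z₀ hz2').mono Set.subset_union_right
      refine ⟨S ∪ U, ?_, ?_, ?_⟩
      · intro v hv
        rcases hv with hv | hv
        · obtain ⟨h1, h2, h3⟩ := CH_loop_sub hS v hv
          exact ⟨⟨g, by simp, h2⟩, h3⟩
        · obtain ⟨⟨a, ha, h2⟩, h3⟩ := hU1 v hv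
          exact ⟨⟨a, List.mem_cons_of_mem _ ha, h2⟩, h3⟩
      · intro z hz z' hz'
        exact (key z hz).trans (key z' hz').symm
      · intro a ha
        rcases List.mem_cons.1 ha with rfl | ha
        · exact ⟨S, hS, Set.subset_union_left⟩
        · obtain ⟨S₁, h1, h2⟩ := hU3 a ha
          exact ⟨S₁, h1, h2.trans Set.subset_union_right⟩

/-- a straight half line from the centre of a loop hits the loop -/
theorem CH_line (hLH : LH_stmt) {c : V → Bool} {k : Bool} {g : V} {ℓ : ℕ} {S : Set V}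
    (hS : Loop c k g ℓ S) (f : ℕ → V) (hf : ∀ t, Adj (f t) (f (t + 1)))
    (hd : ∀ t, sd g (f t) = t) : ∃ t : ℕ, 1 ≤ t ∧ f t ∈ S := by
  have hcon : ∀ t, Con {v | ∃ s, v = f s} (f 0) (f t) := by
    intro t
    induction t with
    | zero => exact Con.refl ⟨0, rfl⟩
    | succ t ih => exact ih.tail (hf t) ⟨t + 1, rfl⟩
  obtain ⟨z, hz, hzW⟩ := hLH c k g ℓ S hS _ _ _ (hcon (3 * ℓ)) (by rw [hd]; exact Nat.zero_le _)
    (by rw [hd])
  obtain ⟨t, ht⟩ := Con.mem_right hzW
  refine ⟨t, ?_, ht ▸ hz⟩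
  have h1 := (CH_loop_sub hS z hz).1
  rw [ht, hd] at h1
  omega

theorem CH2 (hLH : LH_stmt) (hCH1 : CH1_stmt) : CH2_stmt := by
  intro c k ℓ gs hF hC hne _
  obtain ⟨U, hU1, hU2, hU3⟩ := hCH1 c k ℓ gs hF hC hne
  refine ⟨U, hU1, hU2, ?_, ?_⟩
  · intro g hg W u v hW hu hv
    obtain ⟨S, hS, hSU⟩ := hU3 g hg
    obtain ⟨z, hz, h⟩ := hLH c k g ℓ S hS W u v hW hu hv
    exact ⟨z, hSU hz, h⟩
  · intro g hg
    obtain ⟨S, hS, hSU⟩ := hU3 g hg
    refine ⟨?_, ?_, ?_, ?_⟩
    · obtain ⟨t, ht, h⟩ := CH_line hLH hS (fun t => (g.1 + t, g.2)) (by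
        intro t
        have := adj_right (g.1 + t, g.2)
        push_cast
        rw [← add_assoc]
        exact this) (by
        intro t
        unfold sd
        simp only
        omega)
      exact ⟨t, ht, hSU h⟩
    · obtain ⟨t, ht, h⟩ := CH_line hLH hS (fun t => (g.1 - t, g.2)) (by
        intro t
        have := adj_left (g.1 - t, g.2)
        push_cast
        rw [← sub_sub]
        exact this) (by
        intro t
        unfold sd
        simp only
        omega)
      exact ⟨t, ht, hSU h⟩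
    · obtain ⟨t, ht, h⟩ := CH_line hLH hS (fun t => (g.1, g.2 + t)) (by
        intro t
        have := adj_up (g.1, g.2 + t)
        push_cast
        rw [← add_assoc]
        exact this) (by
        intro t
        unfold sd
        simp only
        omega)
      exact ⟨t, ht, hSU h⟩
    · obtain ⟨t, ht, h⟩ := CH_line hLH hS (fun t => (g.1, g.2 - t)) (by
        intro t
        have := adj_down (g.1, g.2 - t)
        push_cast
        rw [← sub_sub]
        exact this) (by
        intro t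
        unfold sd
        simp only
        omega)
      exact ⟨t, ht, hSU h⟩

theorem CH_reg_finite (ℓ : ℕ) (gs : List V) : (reg ℓ gs).Finite := by
  have h1 : reg ℓ gs ⊆ ⋃ g ∈ {g | g ∈ gs}, box g (3 * ℓ) := by
    rintro v ⟨g, hg, hv⟩
    simp only [Set.mem_iUnion]
    exact ⟨g, hg, le_of_lt hv⟩
  exact (Set.Finite.biUnion (List.finite_toSet gs) fun g _ => box_finite g (3 * ℓ)).subset h1

/-- locality and monotonicity -/
theorem CH4 : CH4_stmt := by
  intro ℓ k gs
  constructor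
  · refine Loc.ev (CH_reg_finite ℓ gs) ?_
    intro c c' hc
    constructor
    · intro h g hg
      obtain ⟨S, hS⟩ := h g hg
      exact ⟨S, CH_loop_colour (fun v hv hv' => (hc v ⟨g, hg, hv⟩) ▸ hv') hS⟩
    · intro h g hg
      obtain ⟨S, hS⟩ := h g hg
      exact ⟨S, CH_loop_colour (fun v hv hv' => (hc v ⟨g, hg, hv⟩).symm ▸ hv') hS⟩
  · refine Mon.ev ?_
    intro c c' hc h g hg
    obtain ⟨S, hS⟩ := h g hg
    exact ⟨S, CH_loop_colour (fun v _ => hc v) hS⟩

theorem CH_Q_univ (ρ : V → ℝ) : Q ρ Set.univ Set.univ = 1 := by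
  unfold Q
  have : IsProbabilityMeasure (PP ρ) := by
    unfold PP
    infer_instance
  simp

/-- probability of the loops of a chain -/
theorem CH3 (hfkg : Bfkg_stmt) (hsq : Bsq_stmt) : CH3_stmt := by
  intro c₀ ℓ k ρ gs hρ hc hp
  induction gs with
  | nil =>
    have h1 : (Ev fun c => Full c k ℓ []) = Set.univ := by
      ext b
      simp [Ev, Full]
    rw [h1, CH_Q_univ]
    simp
  | cons g gs ih =>
    have h1 : (Ev fun c => Full c k ℓ (g :: gs)) =
        (Ev fun c => Full c k ℓ [g]) ∩ Ev fun c => Full c k ℓ gs := by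
      ext b
      simp [Ev, Full]
    have h2 : (Ev fun c => ∃ S, Loop c k g ℓ S) = Ev fun c => Full c k ℓ [g] := by
      ext b
      simp [Ev, Full]
    have hL1 := CH4 ℓ k [g]
    have hL2 := CH4 ℓ k gs
    have h3 := hfkg ρ k _ _ (reg ℓ [g] ∪ reg ℓ gs) (hL1.1.mono Set.subset_union_left)
      (hL2.1.mono Set.subset_union_right) hL1.2 hL2.2
    have h4 := hsq ρ _ _ hρ hL1.1
    have h5 := hp g
    rw [h2] at h5
    have h6 : c₀ ^ 2 ≤ Q ρ (Ev fun c => Full c k ℓ [g]) (Ev fun c => Full c k ℓ [g]) :=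
      le_trans (pow_le_pow_left₀ hc h5 2) h4
    rw [h1]
    refine le_trans ?_ h3
    have e1 : c₀ ^ (2 * (g :: gs).length) = c₀ ^ 2 * c₀ ^ (2 * gs.length) := by
      rw [List.length_cons]
      ring
    rw [e1]
    exact mul_le_mul h6 ih (pow_nonneg hc _) (le_trans (pow_nonneg hc 2) h6)

end DP
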